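import Pool.Agent.Helper96_Var.Top

set_option autoImplicit false

open scoped commutatorElement

namespace Pool.Agent.Helper96Var

/-- the word `[x₀, x₁, x₂]` -/
def aW {G : Type} [Group G] (x : ℕ → G) : G := ⁅⁅x 0, x 1⁆, x 2⁆

/-- the word `[a, [x₃, x₄], [x₅, x₆], …]` -/
def cW {G : Type} [Group G] (x : ℕ → G) : ℕ → G
  | 0 => aW x
  | (i + 1) => ⁅cW x i, ⁅x (3 + 2 * i), x (4 + 2 * i)⁆⁆

/-- the word `[a, [x₃, x₄], …, a]` -/
def om {G : Type} [Group G] (j : ℕ) (x : ℕ → G) : G := ⁅cW x j, aW x⁆

theorem map_aW {G H : Type} [Group G] [Group H] (φ : G →* H) (x : ℕ → G) :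
    φ (aW x) = aW (fun i => φ (x i)) := by
  simp only [aW, map_commutatorElement]

theorem map_cW {G H : Type} [Group G] [Group H] (φ : G →* H) (x : ℕ → G) (j : ℕ) :
    φ (cW x j) = cW (fun i => φ (x i)) j := by
  induction j with
  | zero => exact map_aW φ x
  | succ i ih => simp only [cW, map_commutatorElement, ih]

theorem map_om {G H : Type} [Group G] [Group H] (φ : G →* H) (x : ℕ → G) (j : ℕ) :
    φ (om j x) = om j (fun i => φ (x i)) := by
  simp only [om, map_commutatorElement, map_aW, map_cW]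

variable {n : ℕ}

/-- the element of the tensor square belonging to the `i`-th pair of variables -/
def ui (x : ℕ → HH n) (i : ℕ) : UU n :=
  ten (x (3 + 2 * i)).k.w (x (4 + 2 * i)).k.w + ten (x (4 + 2 * i)).k.w (x (3 + 2 * i)).k.w

theorem aW_k (x : ℕ → HH n) : (aW x).k = 1 := by
  unfold aW
  rw [HH.comm_k, HH.comm_k, KK.comm_eq, KK.comm_eq]
  apply KK.ext
  · rfl
  · funext i j
    simp [ten]

theorem cW_k (x : ℕ → HH n) (j : ℕ) : (cW x j).k = 1 := by
  induction j with
  | zero => exact aW_k x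
  | succ i ih =>
    simp only [cW, HH.comm_k, ih]
    simp

theorem cW_v_succ (x : ℕ → HH n) (i : ℕ) (g : KK n) :
    (cW x (i + 1)).v g = (cW x i).v g + (cW x i).v (g.sh (ui x i)) := by
  have h1 : (cW x (i + 1)).v = (cW x i).v + act ⁅x (3 + 2 * i), x (4 + 2 * i)⁆.k (cW x i).v := by
    show (⁅cW x i, ⁅x (3 + 2 * i), x (4 + 2 * i)⁆⁆ : HH n).v = _
    rw [HH.comm_v _ _ (cW_k x i)]
  rw [h1, HH.comm_k, KK.comm_eq]
  show (cW x i).v g + (cW x i).v _ = _
  rw [KK.cen_inv_mul]
  rfl

/-- the subset sum formula -/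
theorem cW_v (x : ℕ → HH n) (j : ℕ) (g : KK n) :
    (cW x j).v g = ∑ I ∈ (Finset.range j).powerset, (aW x).v (g.sh (∑ i ∈ I, ui x i)) := by
  induction j generalizing g with
  | zero =>
    simp only [Finset.range_zero, Finset.powerset_empty, Finset.sum_singleton, Finset.sum_empty]
    have : g.sh 0 = g := by apply KK.ext <;> simp
    rw [this]
    rfl
  | succ j ih =>
    rw [cW_v_succ, ih, ih, Finset.range_add_one, Finset.sum_powerset_insert (by simp)]
    congr 1
    apply Finset.sum_congr rfl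
    intro I hI
    have hj : j ∉ I := by
      intro h
      have := Finset.mem_powerset.1 hI h
      simp at this
    rw [Finset.sum_insert hj, KK.sh_sh]

theorem om_eq (x : ℕ → HH n) (j : ℕ) :
    om j x = ⟨0, be (cW x j).v (aW x).v + be (aW x).v (cW x j).v, 1⟩ :=
  HH.comm_x _ _ (cW_k x j) (aW_k x)

/-- the local sum -/
def SS (v : Fn n) (g : KK n) (u : UU n) : ZMod 2 :=
  ∑ B : UU n, v (g.sh (B + u)) * v (g.sh (B + tt n))

theorem SS_eq_zero (v : Fn n) (g : KK n) (u : UU n) (hu : u ≠ tt n) : SS v g u = 0 := by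
  unfold SS
  apply Finset.sum_involution (fun B _ => B + (u + tt n))
  · intro B _
    have e1 : B + (u + tt n) + u = B + tt n + (u + u) := by abel
    have e2 : B + (u + tt n) + tt n = B + u + (tt n + tt n) := by abel
    rw [e1, e2, uadd, uadd, add_zero, add_zero, mul_comm]
    exact zadd _
  · intro B _ _ h
    apply hu
    have h1 : u + tt n = 0 := by
      have := congrArg (fun z => z + B) h
      have e : B + (u + tt n) + B = (u + tt n) + (B + B) := by abel
      simp only [e, uadd, add_zero] at this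
      exact this
    have h2 := congrArg (fun z => z + tt n) h1
    simp only [add_assoc, uadd, add_zero, zero_add] at h2
    exact h2
  · intro B _
    exact Finset.mem_univ _
  · intro B _
    have : B + (u + tt n) + (u + tt n) = B + ((u + tt n) + (u + tt n)) := by abel
    rw [this, uadd, add_zero]

theorem om_x (x : ℕ → HH n) (j : ℕ) (g : KK n) :
    (om j x).x g = ∑ I ∈ (Finset.range j).powerset, SS (aW x).v g (∑ i ∈ I, ui x i) := by
  rw [om_eq]
  show be (cW x j).v (aW x).v g + be (aW x).v (cW x j).v g = _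
  rw [be_symm]
  unfold SS
  rw [Finset.sum_comm]
  apply Finset.sum_congr rfl
  intro B _
  rw [cW_v, Finset.sum_mul]
  apply Finset.sum_congr rfl
  intro I _
  rw [KK.sh_sh]

/-- Few wedge products do not add up to the special element. -/
theorem wedge_ne (I : Finset ℕ) (hI : I.card ≤ n) (a b : ℕ → WW n) :
    ∑ i ∈ I, (ten (a i) (b i) + ten (b i) (a i)) ≠ tt n := by
  intro h
  classical
  let L : WW n → (I × Bool → ZMod 2) := fun z p =>
    if p.2 then ∑ q, a p.1 q * z q else ∑ q, b p.1 q * z q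
  have hcard : Fintype.card (I × Bool → ZMod 2) < Fintype.card (WW n) := by
    simp only [Fintype.card_fun, Fintype.card_prod, ZMod.card, Fintype.card_bool,
      Fintype.card_coe, Fintype.card_fin]
    apply Nat.pow_lt_pow_right (by norm_num)
    omega
  obtain ⟨z₁, z₂, hne, heq⟩ := Fintype.exists_ne_map_eq_of_card_lt L hcard
  have ha : ∀ i ∈ I, ∑ q, a i q * (z₁ q + z₂ q) = 0 := by
    intro i hi
    have := congrFun heq (⟨i, hi⟩, true)
    simp only [L, if_true] at this
    simp only [mul_add, Finset.sum_add_distrib, this]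
    exact zadd _
  have hb : ∀ i ∈ I, ∑ q, b i q * (z₁ q + z₂ q) = 0 := by
    intro i hi
    have := congrFun heq (⟨i, hi⟩, false)
    simp only [L, if_neg (by decide : ¬ (false = true))] at this
    simp only [mul_add, Finset.sum_add_distrib, this]
    exact zadd _
  apply hne
  funext p
  -- evaluate both sides at the swapped index
  have h1 : ∑ q, (tt n (p.1, !p.2) q) * (z₁ q + z₂ q) = z₁ p + z₂ p := by
    rw [Finset.sum_eq_single p]
    · simp [tt]
    · intro q _ hq
      have : ¬ (q = (p.1, p.2)) := hq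
      simp [tt, this]
    · intro hp
      exact absurd (Finset.mem_univ _) hp
  have h2 : ∑ q, (tt n (p.1, !p.2) q) * (z₁ q + z₂ q) = 0 := by
    rw [← h]
    simp only [Finset.sum_apply, Pi.add_apply, ten]
    simp only [Finset.sum_mul, add_mul]
    rw [Finset.sum_comm]
    apply Finset.sum_eq_zero
    intro i hi
    rw [Finset.sum_add_distrib]
    have e1 : ∑ q, a i (p.1, !p.2) * b i q * (z₁ q + z₂ q) =
        a i (p.1, !p.2) * ∑ q, b i q * (z₁ q + z₂ q) := by
      rw [Finset.mul_sum]
      apply Finset.sum_congr rfl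
      intro q _
      ring
    have e2 : ∑ q, b i (p.1, !p.2) * a i q * (z₁ q + z₂ q) =
        b i (p.1, !p.2) * ∑ q, a i q * (z₁ q + z₂ q) := by
      rw [Finset.mul_sum]
      apply Finset.sum_congr rfl
      intro q _
      ring
    rw [e1, e2, ha i hi, hb i hi]
    simp
  rw [h1] at h2
  have h3 : z₁ p + z₂ p + z₂ p = z₂ p := by rw [h2, zero_add]
  rw [add_assoc, zadd, add_zero] at h3
  exact h3

theorem om_small (x : ℕ → HH n) (j : ℕ) (hj : j ≤ n) : om j x = 1 := by
  apply HH.ext
  · rw [om_eq]; rfl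
  · funext g
    rw [om_x]
    show _ = 0
    apply Finset.sum_eq_zero
    intro I hI
    apply SS_eq_zero
    unfold ui
    apply wedge_ne I _ (fun i => (x (3 + 2 * i)).k.w) (fun i => (x (4 + 2 * i)).k.w)
    have := Finset.card_le_card (Finset.mem_powerset.1 hI)
    rw [Finset.card_range] at this
    omega
  · rw [om_eq]; rfl

/-- the operator `1 + u` kills `v` -/
def Kill (u : UU n) (v : Fn n) : Prop := ∀ g : KK n, v g + v (g.sh u) = 0

theorem kill_of_lt (x : ℕ → HH n) (i : ℕ) : ∀ l < i, Kill (ui x l) (cW x i).v := by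
  induction i with
  | zero => intro l hl; omega
  | succ i ih =>
    intro l hl g
    rw [cW_v_succ, cW_v_succ, KK.sh_sh]
    rcases Nat.lt_succ_iff_lt_or_eq.1 hl with h | h
    · have h1 := ih l h g
      have h2 := ih l h (g.sh (ui x i))
      rw [KK.sh_sh] at h2
      have h3 : ui x l + ui x i = ui x i + ui x l := add_comm _ _
      rw [h3]
      linear_combination h1 + h2
    · subst h
      have h2 : (2 : ZMod 2) = 0 := by decide
      have h3 : g.sh (ui x l + ui x l) = g := by
        rw [uadd]; apply KK.ext <;> simp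
      rw [h3]
      linear_combination ((cW x l).v g + (cW x l).v (g.sh (ui x l))) * h2

theorem cW_v_zero_of_le (x : ℕ → HH n) (i j : ℕ) (hij : i ≤ j) (h : (cW x i).v = 0) :
    (cW x j).v = 0 := by
  induction j, hij using Nat.le_induction with
  | base => exact h
  | succ j _ ih =>
    funext g
    rw [cW_v_succ, ih]
    simp

theorem cW_v_zero_of_card (x : ℕ → HH n) (j : ℕ) (hj : Fintype.card (UU n) < j) :
    (cW x j).v = 0 := by
  have hcard : Fintype.card (UU n) < Fintype.card (Fin j) := by simpa using hj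
  obtain ⟨a, b, hab, heq⟩ := Fintype.exists_ne_map_eq_of_card_lt (fun i : Fin j => ui x i) hcard
  have main : ∀ a b : Fin j, a < b → ui x a = ui x b → (cW x j).v = 0 := by
    intro a b hab heq
    apply cW_v_zero_of_le x (b + 1) j b.2
    funext g
    rw [cW_v_succ, ← heq]
    exact kill_of_lt x b a hab g
  rcases lt_or_gt_of_ne hab with h | h
  · exact main a b h heq
  · exact main b a h heq.symm

theorem om_large (x : ℕ → HH n) (j : ℕ) (hj : Fintype.card (UU n) < j) : om j x = 1 := by
  rw [om_eq, cW_v_zero_of_card x j hj, be_zero_left, be_zero_right]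
  apply HH.ext
  · rfl
  · show (0 : Fn n) + 0 = 0
    rw [add_zero]
  · rfl

theorem om_sq (x : ℕ → HH n) (j : ℕ) : om j x * om j x = 1 := by
  rw [om_eq]
  apply HH.ext
  · show (0 : Fn n) + act 1 0 = 0
    rw [act_zero, add_zero]
  · rw [HH.mul_x]
    simp only [act_one, be_zero_left, add_zero, HH.one_x]
    exact fadd _
  · show (1 : KK n) * 1 = 1
    rw [one_mul]

/-- a basis vector -/
def ev (n : ℕ) (i : ℕ) (b : Bool) : WW n := fun p => if p.1.val = i ∧ p.2 = b then 1 else 0

open Classical in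
/-- the indicator function of the identity -/
noncomputable def dl (n : ℕ) : Fn n := fun g => if g = 1 then 1 else 0

theorem dl_one (n : ℕ) : dl n 1 = 1 := by simp [dl]

theorem dl_ne {n : ℕ} {g : KK n} (h : g ≠ 1) : dl n g = 0 := by simp [dl, h]

/-- the substitution showing that the law fails -/
noncomputable def xx (n : ℕ) : ℕ → HH n
  | 0 => ⟨dl n, 0, 1⟩
  | 1 => ⟨0, 0, ⟨ev n 0 false, 0⟩⟩
  | 2 => ⟨0, 0, ⟨ev n 0 true, 0⟩⟩
  | (m + 3) => if m % 2 = 0 then ⟨0, 0, ⟨ev n (m / 2) false, 0⟩⟩ else ⟨0, 0, ⟨ev n (m / 2) true, 0⟩⟩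

theorem xx_even (n i : ℕ) : xx n (3 + 2 * i) = ⟨0, 0, ⟨ev n i false, 0⟩⟩ := by
  have h : 3 + 2 * i = 2 * i + 3 := by omega
  rw [h]
  simp [xx]

theorem xx_odd (n i : ℕ) : xx n (4 + 2 * i) = ⟨0, 0, ⟨ev n i true, 0⟩⟩ := by
  have h : 4 + 2 * i = (2 * i + 1) + 3 := by omega
  rw [h]
  have h1 : (2 * i + 1) % 2 = 1 := by omega
  have h2 : (2 * i + 1) / 2 = i := by omega
  simp [xx, h1, h2]

theorem ui_xx (n i : ℕ) : ui (xx n) i =
    ten (ev n i false) (ev n i true) + ten (ev n i true) (ev n i false) := by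
  unfold ui
  rw [xx_even, xx_odd]

theorem sum_ui_apply (n : ℕ) (I : Finset ℕ) (i : Fin (n + 1)) :
    (∑ l ∈ I, ui (xx n) l) (i, false) (i, true) = if i.val ∈ I then 1 else 0 := by
  simp only [Finset.sum_apply, ui_xx, Pi.add_apply, ten, ev]
  simp

theorem sum_ui_univ (n : ℕ) : (∑ l ∈ Finset.range (n + 1), ui (xx n) l) = tt n := by
  funext p q
  obtain ⟨p1, p2⟩ := p
  obtain ⟨q1, q2⟩ := q
  simp only [Finset.sum_apply, ui_xx, Pi.add_apply, ten, ev, tt]
  have hp := p1.2
  rw [Finset.sum_eq_single p1.val]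
  · by_cases hq : q1 = p1
    · subst hq
      cases p2 <;> cases q2 <;> simp
    · have hq' : ¬ (q1.val = p1.val) := fun h => hq (Fin.ext h)
      simp [hq, hq']
  · intro l _ hl
    have h1 : ¬ (p1.val = l) := fun h => hl h.symm
    simp [h1]
  · intro h
    exfalso
    apply h
    simpa using hp

theorem sq_eq_self (z : ZMod 2) : z * z = z := by
  revert z; decide

theorem SS_tt (v : Fn n) (g : KK n) : SS v g (tt n) = ∑ B : UU n, v (g.sh B) := by
  unfold SS
  have hs := Equiv.sum_comp (Equiv.addRight (tt n)) (fun B => v (g.sh B))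
  rw [← hs]
  apply Finset.sum_congr rfl
  intro B _
  rw [sq_eq_self]
  rfl

theorem aW_xx_v (n : ℕ) (g : KK n) : (aW (xx n)).v g =
    dl n g + dl n ((⟨ev n 0 false, 0⟩ : KK n)⁻¹ * g) + (dl n ((⟨ev n 0 true, 0⟩ : KK n)⁻¹ * g)
      + dl n ((⟨ev n 0 false, 0⟩ : KK n)⁻¹ * ((⟨ev n 0 true, 0⟩ : KK n)⁻¹ * g))) := by
  have h0 : (xx n 0).k = 1 := rfl
  have h1 : (⁅xx n 0, xx n 1⁆ : HH n).k = 1 := by
    rw [HH.comm_k, h0]
    simp
  show (⁅⁅xx n 0, xx n 1⁆, xx n 2⁆ : HH n).v g = _
  rw [HH.comm_v _ _ h1, HH.comm_v _ _ h0]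
  rfl

theorem ev_ne (n : ℕ) (b : Bool) : ev n 0 b ≠ 0 := by
  intro h
  have := congrFun h (0, b)
  simp [ev] at this

theorem ev_add_ne (n : ℕ) : ev n 0 false + ev n 0 true ≠ 0 := by
  intro h
  have := congrFun h (0, true)
  simp [ev] at this

theorem sum_aW_xx (n : ℕ) : ∑ B : UU n, (aW (xx n)).v ((1 : KK n).sh B) = 1 := by
  rw [Finset.sum_eq_single (0 : UU n)]
  · rw [aW_xx_v]
    have h1 : (1 : KK n).sh 0 = 1 := by apply KK.ext <;> simp
    rw [h1, dl_one, dl_ne, dl_ne, dl_ne]
    · simp
    · intro h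
      apply ev_add_ne n
      have := congrArg KK.w h
      simpa using this
    · intro h
      apply ev_ne n true
      have := congrArg KK.w h
      simpa using this
    · intro h
      apply ev_ne n false
      have := congrArg KK.w h
      simpa using this
  · intro B _ hB
    rw [aW_xx_v, dl_ne, dl_ne, dl_ne, dl_ne]
    · simp
    · intro h
      apply ev_add_ne n
      have := congrArg KK.w h
      simpa using this
    · intro h
      apply ev_ne n true
      have := congrArg KK.w h
      simpa using this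
    · intro h
      apply ev_ne n false
      have := congrArg KK.w h
      simpa using this
    · intro h
      apply hB
      have := congrArg KK.A h
      simpa using this
  · intro h
    exact absurd (Finset.mem_univ _) h

theorem om_fail (n : ℕ) : om (n + 1) (xx n) ≠ 1 := by
  intro h
  have h1 : (om (n + 1) (xx n)).x 1 = 1 := by
    rw [om_x, Finset.sum_eq_single (Finset.range (n + 1))]
    · rw [sum_ui_univ, SS_tt, sum_aW_xx]
    · intro I hI hne
      apply SS_eq_zero
      intro heq
      apply hne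
      apply Finset.Subset.antisymm (Finset.mem_powerset.1 hI)
      intro i hi
      rw [Finset.mem_range] at hi
      have h2 := sum_ui_apply n I ⟨i, hi⟩
      rw [heq] at h2
      by_contra hcon
      simp only [hcon, if_false] at h2
      simp [tt] at h2
    · intro hh
      exact absurd (Finset.mem_powerset.2 (Finset.Subset.refl _)) hh
  rw [h] at h1
  have h2 : (0 : ZMod 2) = 1 := h1
  exact absurd h2 (by decide)

end Pool.Agent.Helper96Var
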