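import Pool.Agent.Helper96_Var.Laws

set_option autoImplicit false

open scoped commutatorElement

namespace Pool.Agent.Helper96Var

/-- The alternating group of degree five. -/
abbrev A5 : Type := alternatingGroup (Fin 5)

set_option maxRecDepth 100000 in
theorem A5_pow_thirty : ∀ s : A5, s ^ 30 = 1 := by decide +kernel

/-- The involution (0 1)(2 3). -/
def invol : A5 :=
  ⟨Equiv.swap 0 1 * Equiv.swap 2 3, by rw [Equiv.Perm.mem_alternatingGroup]; decide⟩

/-- The involution (0 2)(1 4). -/
def invol' : A5 :=
  ⟨Equiv.swap 0 2 * Equiv.swap 1 4, by rw [Equiv.Perm.mem_alternatingGroup]; decide⟩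

theorem invol_ne : invol ≠ 1 := by decide

theorem invol_sq : invol * invol = 1 := by decide

instance : IsSimpleGroup A5 := alternatingGroup.isSimpleGroup (by simp)

theorem exists_noncomm : ∃ a b : A5, ⁅a, b⁆ ≠ 1 := by
  refine ⟨invol, invol', ?_⟩
  rw [commutatorElement_def]
  decide

theorem exists_not_comm_of_ne {a : A5} (ha : a ≠ 1) : ∃ s : A5, ⁅a, s⁆ ≠ 1 := by
  by_contra h
  push Not at h
  have hc : a ∈ Subgroup.center A5 := by
    rw [Subgroup.mem_center_iff]
    intro g
    have := h g
    rw [commutatorElement_eq_one_iff_mul_comm] at this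
    exact this.symm
  have hn : (Subgroup.center A5).Normal := inferInstance
  rcases hn.eq_bot_or_eq_top with h1 | h1
  · rw [h1, Subgroup.mem_bot] at hc
    exact ha hc
  · obtain ⟨x, y, hxy⟩ := exists_noncomm
    apply hxy
    rw [commutatorElement_eq_one_iff_mul_comm]
    have : y ∈ Subgroup.center A5 := by rw [h1]; trivial
    rw [Subgroup.mem_center_iff] at this
    exact this x

/-- The unrestricted regular wreath product of the alternating group of degree five with `K`. -/
@[ext] structure Wr (K : Type) where
  f : K → A5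
  k : K

namespace Wr

variable {K : Type} [Group K]

instance : Mul (Wr K) := ⟨fun a b => ⟨fun x => a.f x * b.f (a.k⁻¹ * x), a.k * b.k⟩⟩
instance : One (Wr K) := ⟨⟨fun _ => 1, 1⟩⟩
instance : Inv (Wr K) := ⟨fun a => ⟨fun x => (a.f (a.k * x))⁻¹, a.k⁻¹⟩⟩

@[simp] theorem mul_f (a b : Wr K) (x : K) : (a * b).f x = a.f x * b.f (a.k⁻¹ * x) := rfl
@[simp] theorem mul_k (a b : Wr K) : (a * b).k = a.k * b.k := rfl
@[simp] theorem one_f (x : K) : (1 : Wr K).f x = 1 := rfl
@[simp] theorem one_k : (1 : Wr K).k = 1 := rfl
@[simp] theorem inv_f (a : Wr K) (x : K) : (a⁻¹).f x = (a.f (a.k * x))⁻¹ := rfl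
@[simp] theorem inv_k (a : Wr K) : (a⁻¹).k = a.k⁻¹ := rfl

instance : Group (Wr K) := Group.ofLeftAxioms
  (by
    intro a b c
    ext x
    · simp [mul_assoc]
    · simp [mul_assoc])
  (by
    intro a
    ext x <;> simp)
  (by
    intro a
    ext x <;> simp)

/-- projection to the top group -/
def top : Wr K →* K where
  toFun := Wr.k
  map_one' := rfl
  map_mul' _ _ := rfl

/-- inclusion of the top group -/
def incl : K →* Wr K where
  toFun k := ⟨fun _ => 1, k⟩
  map_one' := rfl
  map_mul' a b := by ext x <;> simp

@[simp] theorem incl_f (k x : K) : (incl k).f x = 1 := rfl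
@[simp] theorem incl_k (k : K) : (incl k).k = k := rfl

open Classical in
/-- the element of the base group with value `s` at `x` and trivial elsewhere -/
noncomputable def single (x : K) : A5 →* Wr K where
  toFun s := ⟨fun y => if y = x then s else 1, 1⟩
  map_one' := by ext y <;> simp
  map_mul' a b := by
    ext y
    · by_cases h : y = x <;> simp [h]
    · simp

open Classical in
@[simp] theorem single_f (x y : K) (s : A5) : (single x s).f y = if y = x then s else 1 := rfl
@[simp] theorem single_k (x : K) (s : A5) : (single x s).k = 1 := rfl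

theorem base_pow (g : Wr K) (hg : g.k = 1) (n : ℕ) : (g ^ n).k = 1 ∧ ∀ x, (g ^ n).f x = (g.f x) ^ n := by
  induction n with
  | zero => simp
  | succ n ih =>
    rw [pow_succ]
    refine ⟨by simp [ih.1, hg], fun x => ?_⟩
    simp [ih.1, ih.2, pow_succ]

theorem base_pow_thirty (g : Wr K) (hg : g.k = 1) : g ^ 30 = 1 := by
  obtain ⟨h1, h2⟩ := base_pow g hg 30
  ext x
  · rw [h2, A5_pow_thirty]; rfl
  · exact h1

theorem exists_single_ne (Y : Subgroup (Wr K)) [hY : Y.Normal] (h : Y ≠ ⊥) :
    ∃ x : K, ∃ s : A5, s ≠ 1 ∧ single x s ∈ Y := by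
  classical
  -- a nontrivial element of the base
  have step1 : ∃ g ∈ Y, g.k = 1 ∧ ∃ x, g.f x ≠ 1 := by
    obtain ⟨⟨g, hg⟩, hg1'⟩ := (Subgroup.ne_bot_iff_exists_ne_one).1 h
    have hg1 : g ≠ 1 := fun hh => hg1' (Subtype.ext hh)
    by_cases hk : g.k = 1
    · refine ⟨g, hg, hk, ?_⟩
      by_contra hcon
      push Not at hcon
      apply hg1
      ext x
      · rw [hcon x]; rfl
      · exact hk
    · refine ⟨⁅g, single 1 invol⁆, ?_, ?_, 1, ?_⟩
      · rw [commutatorElement_def, mul_assoc, mul_assoc]
        refine Y.mul_mem hg ?_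
        rw [← mul_assoc]
        exact hY.conj_mem _ (Y.inv_mem hg) _
      · simp [commutatorElement_def]
      · have h1 : ¬ g.k⁻¹ = 1 := by simpa using hk
        simp [commutatorElement_def, h1, invol_ne]
  obtain ⟨g, hg, hk, x, hx⟩ := step1
  obtain ⟨s, hs⟩ := exists_not_comm_of_ne hx
  refine ⟨x, ⁅g.f x, s⁆, hs, ?_⟩
  have : single x ⁅g.f x, s⁆ = ⁅g, single x s⁆ := by
    ext y
    · by_cases hy : y = x
      · subst hy
        simp [commutatorElement_def, hk]
      · simp [commutatorElement_def, hk, hy]
    · simp [commutatorElement_def]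
  rw [this]
  rw [commutatorElement_def, mul_assoc, mul_assoc]
  refine Y.mul_mem hg ?_
  rw [← mul_assoc]
  exact hY.conj_mem _ (Y.inv_mem hg) _

theorem single_mem (Y : Subgroup (Wr K)) [hY : Y.Normal] (h : Y ≠ ⊥) (x : K) (s : A5) :
    single x s ∈ Y := by
  classical
  obtain ⟨y, r, hr, hy⟩ := exists_single_ne Y h
  have h1 : ∀ s : A5, single y s ∈ Y := by
    have hn : (Y.comap (single y)).Normal := inferInstance
    rcases hn.eq_bot_or_eq_top with h2 | h2
    · have : r ∈ Y.comap (single y) := hy
      rw [h2, Subgroup.mem_bot] at this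
      exact absurd this hr
    · intro s
      have : s ∈ Y.comap (single y) := by rw [h2]; trivial
      exact this
  have h2 : single x s = incl (x * y⁻¹) * single y s * (incl (x * y⁻¹))⁻¹ := by
    ext z
    · by_cases hz : z = x
      · subst hz
        simp
      · have : ¬ (y * x⁻¹ * z = y) := by
          intro hh
          apply hz
          have := congrArg (fun u => x * y⁻¹ * u) hh
          simpa [mul_assoc] using this
        simp [hz, this]
    · simp
  rw [h2]
  exact hY.conj_mem _ (h1 s) _

theorem primeType : PrimeType (Wr K) := by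
  intro Y₁ Y₂ n₁ n₂ h₁ h₂
  obtain ⟨a, b, hab⟩ := exists_noncomm
  refine ⟨single 1 a, single_mem Y₁ h₁ 1 a, single 1 b, single_mem Y₂ h₂ 1 b, ?_⟩
  intro h
  apply hab
  have := congrArg (fun g => g.f 1) h
  simpa [commutatorElement_def] using this

/-- A normal subgroup which contains an element whose top part is a nontrivial involution contains
an element whose thirtieth power is nontrivial. -/
theorem exists_pow_ne (Y : Subgroup (Wr K)) [hY : Y.Normal] (c : K) (hc : c ≠ 1) (hc2 : c * c = 1)
    (h : incl c ∈ Y) : ∃ g ∈ Y, g ^ 30 ≠ 1 := by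
  classical
  have hne : Y ≠ ⊥ := by
    intro hb
    rw [hb, Subgroup.mem_bot] at h
    apply hc
    have := congrArg Wr.k h
    simpa using this
  refine ⟨single 1 invol * incl c, Y.mul_mem (single_mem Y hne 1 invol) h, ?_⟩
  intro h30
  set g : Wr K := single 1 invol * incl c with hg
  have hsq : (g * g).k = 1 := by simp [hg, hc2]
  have hcinv : ¬ c⁻¹ = 1 := by simpa using hc
  have hval : (g * g).f 1 = invol := by
    simp [hg, hcinv]
  have h15 : ((g * g) ^ 15).f 1 = invol := by
    rw [(base_pow (g * g) hsq 15).2 1, hval]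
    have : invol ^ 15 = (invol * invol) ^ 7 * invol := by
      rw [← pow_two, ← pow_mul, ← pow_succ]
    rw [this, invol_sq]
    simp
  have : (g * g) ^ 15 = g ^ 30 := by
    rw [← pow_two, ← pow_mul]
  rw [this, h30] at h15
  exact invol_ne h15.symm

open Classical in
/-- functoriality of the wreath product in the top group, for injective homomorphisms -/
noncomputable def map {L : Type} [Group L] (ι : K →* L) (hι : Function.Injective ι) : Wr K →* Wr L where
  toFun a := ⟨Function.extend ι a.f (fun _ => 1), ι a.k⟩
  map_one' := by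
    ext x
    · by_cases hx : ∃ y, ι y = x
      · obtain ⟨y, rfl⟩ := hx
        simp [hι.extend_apply]
      · simp [Function.extend_apply' _ _ _ hx]
    · simp
  map_mul' a b := by
    ext x
    · by_cases hx : ∃ y, ι y = x
      · obtain ⟨y, rfl⟩ := hx
        simp only [mul_f, hι.extend_apply, ← map_inv, ← map_mul]
      · have hx' : ¬ ∃ y, ι y = (ι a.k)⁻¹ * x := by
          rintro ⟨y, hy⟩
          apply hx
          refine ⟨a.k * y, ?_⟩
          rw [map_mul, hy]
          group
        simp only [mul_f, Function.extend_apply' _ _ _ hx, Function.extend_apply' _ _ _ hx', mul_one]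
    · simp

theorem map_injective {L : Type} [Group L] (ι : K →* L) (hι : Function.Injective ι) :
    Function.Injective (map ι hι) := by
  classical
  intro a b hab
  have h1 := congrArg Wr.f hab
  have h2 := congrArg Wr.k hab
  ext x
  · have := congrFun h1 (ι x)
    simp only [map, MonoidHom.coe_mk, OneHom.coe_mk, hι.extend_apply] at this
    rw [this]
  · exact hι h2

end Wr

theorem laws_mono_of_injective {G H : Type} [Group G] [Group H] (ι : G →* H)
    (hι : Function.Injective ι) : Laws H ≤ Laws G := by
  intro w hw φ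
  apply hι
  rw [map_one]
  exact hw (ι.comp φ)

end Pool.Agent.Helper96Var
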