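import Pool.Agent.Helper96_Var.Tree
import Pool.Agent.Helper96_Var.Wreath
import Pool.Agent.Helper96_Var.Words

set_option autoImplicit false

open scoped commutatorElement

namespace Pool.Agent.Helper96Var

/-- a fast growing sequence -/
def NN : ℕ → ℕ
  | 0 => 0
  | (k + 1) => NN k + Fintype.card (UU (NN k)) + 1

theorem NN_succ (k : ℕ) : NN (k + 1) = NN k + Fintype.card (UU (NN k)) + 1 := rfl

theorem NN_strictMono : StrictMono NN := by
  apply strictMono_nat_of_lt_succ
  intro k
  rw [NN_succ]
  omega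

/-- Independence of the laws `om (NN i + 1)`. -/
theorem om_indep (i k : ℕ) (hik : i ≠ k) (x : ℕ → HH (NN k)) : om (NN i + 1) x = 1 := by
  rcases lt_or_gt_of_ne hik with h | h
  · exact om_small x _ (NN_strictMono h)
  · apply om_large
    have h1 : NN (k + 1) ≤ NN i := NN_strictMono.monotone h
    rw [NN_succ] at h1
    omega

/-- The product of all top groups. -/
abbrev BigK : Type := ∀ t : List Bool, HH (NN (Encodable.encode t))

/-- The subgroup of elements supported on the prefixes of `t`. -/
def Kt (t : List Bool) : Subgroup BigK where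
  carrier := {f | ∀ r, ¬ r <+: t → f r = 1}
  mul_mem' := by
    intro a b ha hb r hr
    rw [Pi.mul_apply, ha r hr, hb r hr, one_mul]
  one_mem' := by
    intro r _
    rfl
  inv_mem' := by
    intro a ha r hr
    rw [Pi.inv_apply, ha r hr, inv_one]

/-- The word attached to `t`. -/
def wt (t : List Bool) : FreeGroup ℕ := om (NN (Encodable.encode t) + 1) FreeGroup.of

theorem wt_law (t s : List Bool) (h : ¬ t <+: s) : wt t ∈ Laws (Kt s) := by
  intro φ
  unfold wt
  rw [map_om]
  apply Subtype.ext
  funext r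
  by_cases hr : r = t
  · subst hr
    exact (om (NN (Encodable.encode r) + 1) fun i => φ (FreeGroup.of i)).2 r h
  · have h1 : Encodable.encode t ≠ Encodable.encode r := by
      intro hh
      exact hr (Encodable.encode_injective hh).symm
    have h2 := map_om ((Pi.evalMonoidHom (fun t : List Bool => HH (NN (Encodable.encode t))) r).comp
      (Kt s).subtype) (fun i => φ (FreeGroup.of i)) (NN (Encodable.encode t) + 1)
    rw [om_indep _ _ h1] at h2
    exact h2

/-- the factors -/
abbrev Fac (t : List Bool) : Type := HH (NN (Encodable.encode t))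

/-- the embedding of the last factor -/
def emb (t : List Bool) : HH (NN (Encodable.encode t)) →* Kt t where
  toFun h := ⟨(Pi.mulSingle (M := Fac) t h : BigK), by
    intro r hr
    have : r ≠ t := by
      rintro rfl
      exact hr List.prefix_rfl
    exact Pi.mulSingle_eq_of_ne (M := Fac) this h⟩
  map_one' := by
    apply Subtype.ext
    exact Pi.mulSingle_one (M := Fac) t
  map_mul' a b := by
    apply Subtype.ext
    exact Pi.mulSingle_mul (f := Fac) t a b

theorem emb_injective (t : List Bool) : Function.Injective (emb t) := by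
  intro a b h
  have h1 : (emb t a : BigK) t = (emb t b : BigK) t := by rw [h]
  simpa [emb] using h1

theorem wt_fail (t : List Bool) : ∃ (φ : FreeGroup ℕ →* Kt t), φ (wt t) ≠ 1 ∧
    φ (wt t) * φ (wt t) = 1 := by
  refine ⟨(emb t).comp (FreeGroup.lift (xx _)), ?_, ?_⟩
  · intro h
    unfold wt at h
    rw [map_om] at h
    have h1 : ∀ i, ((emb t).comp (FreeGroup.lift (xx (NN (Encodable.encode t))))) (FreeGroup.of i) =
        emb t (xx _ i) := by
      intro i
      simp
    simp only [h1] at h
    rw [← map_om (emb t), ← map_one (emb t)] at h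
    exact om_fail _ (emb_injective t h)
  · unfold wt
    rw [map_om]
    have h1 : ∀ i, ((emb t).comp (FreeGroup.lift (xx (NN (Encodable.encode t))))) (FreeGroup.of i) =
        emb t (xx _ i) := by
      intro i
      simp
    simp only [h1]
    rw [← map_om (emb t), ← map_mul, om_sq, map_one]

/-- The groups of the tree. -/
abbrev GG (t : List Bool) : Type := Wr (Kt t)

theorem GG_mono (t : List Bool) (b : Bool) : Laws (GG (t ++ [b])) ≤ Laws (GG t) := by
  have hle : Kt t ≤ Kt (t ++ [b]) := by
    intro f hf r hr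
    apply hf
    intro h
    exact hr (h.trans (List.prefix_append t [b]))
  exact laws_mono_of_injective (Wr.map (Subgroup.inclusion hle) (Subgroup.inclusion_injective hle))
    (Wr.map_injective _ _)

theorem GG_indep (t : List Bool) : ¬ UL GG t ≤ Laws (GG t) := by
  intro hle
  -- words which are laws in all top groups not above `t`
  set 𝒩 : Subgroup (FreeGroup ℕ) := ⨅ s : {s : List Bool // ¬ t <+: s}, Laws (Kt s.1) with h𝒩
  have hFI : FI 𝒩 := FI_iInf fun s => FI_laws (Kt s.1)
  have hw : wt t ∈ 𝒩 := by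
    rw [h𝒩, Subgroup.mem_iInf]
    intro s
    exact wt_law t s.1 s.2
  obtain ⟨φ, hφ1, hφ2⟩ := wt_fail t
  have hnorm := Val_normal hFI (GG t)
  have hin : Wr.incl (φ (wt t)) ∈ Val 𝒩 hFI (GG t) := ⟨Wr.incl.comp φ, wt t, hw, rfl⟩
  obtain ⟨g, ⟨ψ, w, hwN, rfl⟩, hg⟩ := Wr.exists_pow_ne (Val 𝒩 hFI (GG t)) _ hφ1 hφ2 hin
  have h30 : w ^ 30 ∈ UL GG t := by
    rw [mem_UL]
    intro s hs χ
    rw [map_pow]
    apply Wr.base_pow_thirty
    have h1 : w ∈ Laws (Kt s) := (Subgroup.mem_iInf.1 hwN) ⟨s, hs⟩
    exact h1 (Wr.top.comp χ)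
  apply hg
  rw [← map_pow]
  exact hle h30 ψ

theorem main :
    ¬ (∀ A : Subgroup (FreeGroup ℕ), FI A →
      ∃ S : Set (Subgroup (FreeGroup ℕ)),
        (∀ N ∈ S, FI N) ∧
        sInf S = A ∧
        (∀ N ∈ S, sInf (S \ {N}) ≠ A) ∧
        (∀ N ∈ S, ¬ ∃ M₁ M₂ : Subgroup (FreeGroup ℕ),
            FI M₁ ∧ FI M₂ ∧ N < M₁ ∧ N < M₂ ∧ M₁ ⊓ M₂ = N)) :=
  main_of_tree GG (fun _ => Wr.primeType) GG_mono GG_indep

end Pool.Agent.Helper96Var
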