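import Mathlib

set_option autoImplicit false

open scoped commutatorElement

namespace Pool.Agent.Helper96Var

/-- Full invariance of a subgroup of the countable free group. -/
def FI (M : Subgroup (FreeGroup ℕ)) : Prop :=
  ∀ φ : FreeGroup ℕ →* FreeGroup ℕ, ∀ w ∈ M, φ w ∈ M

/-- The laws of a group. -/
def Laws (G : Type) [Group G] : Subgroup (FreeGroup ℕ) where
  carrier := {w | ∀ φ : FreeGroup ℕ →* G, φ w = 1}
  mul_mem' := by
    intro a b ha hb φ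
    rw [map_mul, ha φ, hb φ, one_mul]
  one_mem' := by
    intro φ
    exact map_one φ
  inv_mem' := by
    intro a ha φ
    rw [map_inv, ha φ, inv_one]

theorem mem_laws {G : Type} [Group G] {w : FreeGroup ℕ} :
    w ∈ Laws G ↔ ∀ φ : FreeGroup ℕ →* G, φ w = 1 := Iff.rfl

theorem FI_laws (G : Type) [Group G] : FI (Laws G) := by
  intro φ w hw ψ
  exact hw (ψ.comp φ)

theorem FI.normal {M : Subgroup (FreeGroup ℕ)} (h : FI M) : M.Normal := by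
  constructor
  intro n hn g
  have := h (MulAut.conj g).toMonoidHom n hn
  simpa using this

theorem FI_inf {M N : Subgroup (FreeGroup ℕ)} (hM : FI M) (hN : FI N) : FI (M ⊓ N) := by
  intro φ w hw
  exact ⟨hM φ w hw.1, hN φ w hw.2⟩

theorem FI_sInf {S : Set (Subgroup (FreeGroup ℕ))} (h : ∀ N ∈ S, FI N) : FI (sInf S) := by
  intro φ w hw
  rw [Subgroup.mem_sInf] at hw ⊢
  intro N hN
  exact h N hN φ w (hw N hN)

theorem FI_iInf {ι : Sort*} {f : ι → Subgroup (FreeGroup ℕ)} (h : ∀ i, FI (f i)) :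
    FI (iInf f) := by
  intro φ w hw
  rw [Subgroup.mem_iInf] at hw ⊢
  intro i
  exact h i φ w (hw i)

theorem FI_sup {M N : Subgroup (FreeGroup ℕ)} (hM : FI M) (hN : FI N) : FI (M ⊔ N) := by
  intro φ w hw
  have h1 : (M ⊔ N).map φ ≤ M ⊔ N := by
    rw [Subgroup.map_sup]
    apply sup_le_sup
    · rintro _ ⟨x, hx, rfl⟩
      exact hM φ x hx
    · rintro _ ⟨x, hx, rfl⟩
      exact hN φ x hx
  exact h1 ⟨w, hw, rfl⟩

/-- Two homomorphisms from the free group of countable rank can be realised on even and on odd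
generators at the same time. -/
theorem exists_pair {G : Type} [Group G] (φ₁ φ₂ : FreeGroup ℕ →* G) :
    ∃ (ε₁ ε₂ : FreeGroup ℕ →* FreeGroup ℕ) (ψ : FreeGroup ℕ →* G),
      ψ.comp ε₁ = φ₁ ∧ ψ.comp ε₂ = φ₂ := by
  refine ⟨FreeGroup.lift (fun n => FreeGroup.of (2 * n)),
    FreeGroup.lift (fun n => FreeGroup.of (2 * n + 1)),
    FreeGroup.lift (fun n => if n % 2 = 0 then φ₁ (FreeGroup.of (n / 2))
      else φ₂ (FreeGroup.of (n / 2))), ?_, ?_⟩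
  · ext n
    simp
  · ext n
    have h1 : (2 * n + 1) % 2 = 1 := by omega
    have h2 : (2 * n + 1) / 2 = n := by omega
    simp [h1, h2]

/-- The verbal subgroup of `G` belonging to the fully invariant subgroup `M`. -/
def Val (M : Subgroup (FreeGroup ℕ)) (hM : FI M) (G : Type) [Group G] : Subgroup G where
  carrier := {g | ∃ φ : FreeGroup ℕ →* G, ∃ w ∈ M, φ w = g}
  mul_mem' := by
    rintro _ _ ⟨φ₁, w₁, h₁, rfl⟩ ⟨φ₂, w₂, h₂, rfl⟩
    obtain ⟨ε₁, ε₂, ψ, e₁, e₂⟩ := exists_pair φ₁ φ₂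
    refine ⟨ψ, ε₁ w₁ * ε₂ w₂, M.mul_mem (hM _ _ h₁) (hM _ _ h₂), ?_⟩
    rw [map_mul, ← e₁, ← e₂]
    rfl
  one_mem' := ⟨1, 1, M.one_mem, rfl⟩
  inv_mem' := by
    rintro _ ⟨φ, w, h, rfl⟩
    exact ⟨φ, w⁻¹, M.inv_mem h, map_inv φ w⟩

theorem mem_val {M : Subgroup (FreeGroup ℕ)} {hM : FI M} {G : Type} [Group G] {g : G} :
    g ∈ Val M hM G ↔ ∃ φ : FreeGroup ℕ →* G, ∃ w ∈ M, φ w = g := Iff.rfl

theorem Val_normal {M : Subgroup (FreeGroup ℕ)} (hM : FI M) (G : Type) [Group G] :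
    (Val M hM G).Normal := by
  constructor
  rintro _ ⟨φ, w, h, rfl⟩ g
  exact ⟨(MulAut.conj g).toMonoidHom.comp φ, w, h, by simp⟩

theorem Val_ne_bot {M : Subgroup (FreeGroup ℕ)} (hM : FI M) (G : Type) [Group G]
    (h : ¬ M ≤ Laws G) : Val M hM G ≠ ⊥ := by
  intro hb
  apply h
  intro w hw φ
  have : φ w ∈ Val M hM G := ⟨φ, w, hw, rfl⟩
  rw [hb, Subgroup.mem_bot] at this
  exact this

/-- A group in which two nontrivial normal subgroups never commute. -/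
def PrimeType (G : Type) [Group G] : Prop :=
  ∀ Y₁ Y₂ : Subgroup G, Y₁.Normal → Y₂.Normal → Y₁ ≠ ⊥ → Y₂ ≠ ⊥ →
    ∃ a ∈ Y₁, ∃ b ∈ Y₂, ⁅a, b⁆ ≠ 1

theorem prime_laws {G : Type} [Group G] (hG : PrimeType G) {M M' : Subgroup (FreeGroup ℕ)}
    (hM : FI M) (hM' : FI M') (h : ¬ M ≤ Laws G) (h' : ¬ M' ≤ Laws G) :
    ∃ w ∈ M ⊓ M', w ∉ Laws G := by
  obtain ⟨a, ⟨φ₁, w₁, hw₁, rfl⟩, b, ⟨φ₂, w₂, hw₂, rfl⟩, hab⟩ :=
    hG _ _ (Val_normal hM G) (Val_normal hM' G) (Val_ne_bot hM G h) (Val_ne_bot hM' G h')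
  obtain ⟨ε₁, ε₂, ψ, e₁, e₂⟩ := exists_pair φ₁ φ₂
  have k₁ : ε₁ w₁ ∈ M := hM _ _ hw₁
  have k₂ : ε₂ w₂ ∈ M' := hM' _ _ hw₂
  have n₁ := hM.normal
  have n₂ := hM'.normal
  refine ⟨⁅ε₁ w₁, ε₂ w₂⁆, ⟨?_, ?_⟩, ?_⟩
  · rw [commutatorElement_def, mul_assoc, mul_assoc]
    refine M.mul_mem k₁ ?_
    rw [← mul_assoc]
    exact n₁.conj_mem _ (M.inv_mem k₁) _
  · rw [commutatorElement_def]
    exact M'.mul_mem (n₂.conj_mem _ k₂ _) (M'.inv_mem k₂)
  · intro hl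
    apply hab
    have := hl ψ
    rw [map_commutatorElement] at this
    rw [← e₁, ← e₂]
    exact this

end Pool.Agent.Helper96Var
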