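import Mathlib

set_option autoImplicit false

open scoped commutatorElement

namespace Pool.Agent.Helper96Var

/-- index set for a vector space of dimension `2 (n + 1)` -/
abbrev Idx (n : ℕ) : Type := Fin (n + 1) × Bool

/-- the vector space -/
abbrev WW (n : ℕ) : Type := Idx n → ZMod 2

/-- its tensor square -/
abbrev UU (n : ℕ) : Type := Idx n → Idx n → ZMod 2

theorem zadd (a : ZMod 2) : a + a = 0 := CharTwo.add_self_eq_zero a

theorem fadd {α : Type} (a : α → ZMod 2) : a + a = 0 := by
  funext x; exact zadd _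

theorem uadd {n : ℕ} (a : UU n) : a + a = 0 := by
  funext x y; exact zadd _

/-- tensor product of two vectors -/
def ten {n : ℕ} (a b : WW n) : UU n := fun i j => a i * b j

theorem ten_add_left {n : ℕ} (a b c : WW n) : ten (a + b) c = ten a c + ten b c := by
  funext i j; simp [ten, add_mul]

theorem ten_add_right {n : ℕ} (a b c : WW n) : ten a (b + c) = ten a b + ten a c := by
  funext i j; simp [ten, mul_add]

/-- A group of nilpotency class two. -/
@[ext] structure KK (n : ℕ) where
  w : WW n
  A : UU n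

namespace KK

variable {n : ℕ}

instance : Mul (KK n) := ⟨fun a b => ⟨a.w + b.w, a.A + b.A + ten a.w b.w⟩⟩
instance : One (KK n) := ⟨⟨0, 0⟩⟩
instance : Inv (KK n) := ⟨fun a => ⟨a.w, a.A + ten a.w a.w⟩⟩

@[simp] theorem mul_w (a b : KK n) : (a * b).w = a.w + b.w := rfl
@[simp] theorem mul_A (a b : KK n) : (a * b).A = a.A + b.A + ten a.w b.w := rfl
@[simp] theorem one_w : (1 : KK n).w = 0 := rfl
@[simp] theorem one_A : (1 : KK n).A = 0 := rfl
@[simp] theorem inv_w (a : KK n) : (a⁻¹).w = a.w := rfl
@[simp] theorem inv_A (a : KK n) : (a⁻¹).A = a.A + ten a.w a.w := rfl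

instance : Group (KK n) := Group.ofLeftAxioms
  (by
    intro a b c
    apply KK.ext
    · simp [add_assoc]
    · simp only [mul_A, mul_w, ten_add_left, ten_add_right]
      abel)
  (by
    intro a
    apply KK.ext
    · simp
    · funext i j
      simp [ten])
  (by
    intro a
    apply KK.ext
    · simp [fadd]
    · simp only [mul_A, inv_A, inv_w, one_A]
      have : a.A + ten a.w a.w + a.A + ten a.w a.w = (a.A + a.A) + (ten a.w a.w + ten a.w a.w) := by
        abel
      rw [this, uadd, uadd, add_zero])

/-- multiplication by a central element -/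
def sh (g : KK n) (B : UU n) : KK n := ⟨g.w, g.A + B⟩

@[simp] theorem sh_w (g : KK n) (B : UU n) : (sh g B).w = g.w := rfl
@[simp] theorem sh_A (g : KK n) (B : UU n) : (sh g B).A = g.A + B := rfl

theorem mul_sh (k g : KK n) (B : UU n) : k * sh g B = sh (k * g) B := by
  apply KK.ext
  · simp
  · simp only [mul_A, sh_A, sh_w]; abel

theorem sh_sh (g : KK n) (B C : UU n) : sh (sh g B) C = sh g (B + C) := by
  apply KK.ext
  · simp
  · simp [add_assoc]

theorem cen_inv_mul (g : KK n) (B : UU n) : (⟨0, B⟩ : KK n)⁻¹ * g = sh g B := by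
  apply KK.ext
  · simp
  · funext i j
    simp [ten, add_comm]

theorem comm_eq (a b : KK n) : ⁅a, b⁆ = ⟨0, ten a.w b.w + ten b.w a.w⟩ := by
  rw [commutatorElement_def]
  apply KK.ext
  · simp only [mul_w, inv_w]
    have : a.w + b.w + a.w + b.w = (a.w + a.w) + (b.w + b.w) := by abel
    rw [this, fadd, fadd, add_zero]
  · funext i j
    have h2 : (2 : ZMod 2) = 0 := by decide
    simp only [mul_w, mul_A, inv_w, inv_A, ten, Pi.add_apply]
    linear_combination (a.A i j + b.A i j + a.w i * a.w j + b.w i * b.w j + a.w i * b.w j) * h2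

end KK

/-- the special element -/
def tt (n : ℕ) : UU n := fun a b => if b = (a.1, !a.2) then 1 else 0

/-- a linear functional on the tensor square, not vanishing at `tt` -/
def lam {n : ℕ} (B : UU n) : ZMod 2 := B (0, false) (0, true)

theorem lam_add {n : ℕ} (B C : UU n) : lam (B + C) = lam B + lam C := rfl

theorem lam_tt (n : ℕ) : lam (tt n) = 1 := by
  simp [lam, tt]

/-- functions on the group -/
abbrev Fn (n : ℕ) : Type := KK n → ZMod 2

/-- left translation -/
def act {n : ℕ} (k : KK n) (v : Fn n) : Fn n := fun g => v (k⁻¹ * g)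

theorem act_add {n : ℕ} (k : KK n) (v v' : Fn n) : act k (v + v') = act k v + act k v' := rfl

theorem act_zero {n : ℕ} (k : KK n) : act k 0 = 0 := rfl

theorem act_one {n : ℕ} (v : Fn n) : act 1 v = v := by
  funext g
  simp only [act, inv_one, one_mul]

theorem act_act {n : ℕ} (k k' : KK n) (v : Fn n) : act k (act k' v) = act (k * k') v := by
  funext g
  simp only [act, mul_inv_rev, mul_assoc]

/-- the bilinear cocycle -/
def be {n : ℕ} (p q : Fn n) : Fn n := fun g =>
  ∑ B : UU n, if lam B = 0 then p (g.sh B) * q (g.sh (B + tt n)) else 0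

theorem be_add_left {n : ℕ} (p p' q : Fn n) : be (p + p') q = be p q + be p' q := by
  funext g
  simp only [be, Pi.add_apply]
  rw [← Finset.sum_add_distrib]
  apply Finset.sum_congr rfl
  intro B _
  split_ifs
  · rw [add_mul]
  · simp

theorem be_add_right {n : ℕ} (p q q' : Fn n) : be p (q + q') = be p q + be p q' := by
  funext g
  simp only [be, Pi.add_apply]
  rw [← Finset.sum_add_distrib]
  apply Finset.sum_congr rfl
  intro B _
  split_ifs
  · rw [mul_add]
  · simp

theorem be_zero_left {n : ℕ} (q : Fn n) : be 0 q = 0 := by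
  funext g
  simp [be]

theorem be_zero_right {n : ℕ} (q : Fn n) : be q 0 = 0 := by
  funext g
  simp [be]

theorem act_be {n : ℕ} (k : KK n) (p q : Fn n) : act k (be p q) = be (act k p) (act k q) := by
  funext g
  simp only [act, be, KK.mul_sh]

theorem be_symm {n : ℕ} (p q : Fn n) (g : KK n) :
    be p q g + be q p g = ∑ B : UU n, p (g.sh B) * q (g.sh (B + tt n)) := by
  have h2 : be q p g = ∑ B : UU n, if lam B = 0 then 0 else p (g.sh B) * q (g.sh (B + tt n)) := by
    have hs := Equiv.sum_comp (Equiv.addRight (tt n))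
      (fun B => if lam B = 0 then q (g.sh B) * p (g.sh (B + tt n)) else 0)
    have hb : be q p g = ∑ B : UU n, if lam B = 0 then q (g.sh B) * p (g.sh (B + tt n)) else 0 := rfl
    rw [hb, ← hs]
    apply Finset.sum_congr rfl
    intro B _
    show (if lam (B + tt n) = 0 then q (g.sh (B + tt n)) * p (g.sh (B + tt n + tt n)) else 0) = _
    have e1 : B + tt n + tt n = B := by rw [add_assoc, uadd, add_zero]
    rw [e1]
    have e3 : lam (B + tt n) = lam B + 1 := by rw [lam_add, lam_tt]
    have hz : ∀ z : ZMod 2, (z + 1 = 0) ↔ ¬ (z = 0) := by decide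
    by_cases h : lam B = 0
    · have h' : ¬ (lam (B + tt n) = 0) := by rw [e3, hz]; exact fun hh => hh h
      rw [if_neg h', if_pos h]
    · have h' : (lam (B + tt n) = 0) := by rw [e3, hz]; exact h
      rw [if_pos h', if_neg h, mul_comm]
  rw [h2]
  unfold be
  rw [← Finset.sum_add_distrib]
  apply Finset.sum_congr rfl
  intro B _
  split_ifs <;> simp

/-- The top groups: an extension of `KK n` by a `2`-group of class two. -/
@[ext] structure HH (n : ℕ) where
  v : Fn n
  x : Fn n
  k : KK n

namespace HH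

variable {n : ℕ}

instance : Mul (HH n) := ⟨fun a b =>
  ⟨a.v + act a.k b.v, a.x + act a.k b.x + be a.v (act a.k b.v), a.k * b.k⟩⟩
instance : One (HH n) := ⟨⟨0, 0, 1⟩⟩
instance : Inv (HH n) := ⟨fun a => ⟨act a.k⁻¹ a.v, act a.k⁻¹ (a.x + be a.v a.v), a.k⁻¹⟩⟩

@[simp] theorem mul_v (a b : HH n) : (a * b).v = a.v + act a.k b.v := rfl
@[simp] theorem mul_x (a b : HH n) :
    (a * b).x = a.x + act a.k b.x + be a.v (act a.k b.v) := rfl
@[simp] theorem mul_k (a b : HH n) : (a * b).k = a.k * b.k := rfl
@[simp] theorem one_v : (1 : HH n).v = 0 := rfl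
@[simp] theorem one_x : (1 : HH n).x = 0 := rfl
@[simp] theorem one_k : (1 : HH n).k = 1 := rfl
@[simp] theorem inv_v (a : HH n) : (a⁻¹).v = act a.k⁻¹ a.v := rfl
@[simp] theorem inv_x (a : HH n) : (a⁻¹).x = act a.k⁻¹ (a.x + be a.v a.v) := rfl
@[simp] theorem inv_k (a : HH n) : (a⁻¹).k = a.k⁻¹ := rfl

instance : Group (HH n) := Group.ofLeftAxioms
  (by
    intro a b c
    apply HH.ext
    · simp only [mul_v, mul_k, act_add, act_act]; abel
    · simp only [mul_v, mul_x, mul_k, act_add, act_act, act_be, be_add_left, be_add_right]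
      abel
    · simp only [mul_k, mul_assoc])
  (by
    intro a
    apply HH.ext
    · simp only [mul_v, one_v, one_k, act_one, zero_add]
    · simp only [mul_x, one_x, one_v, one_k, act_one, zero_add, be_zero_left, add_zero]
    · simp only [mul_k, one_k, one_mul])
  (by
    intro a
    apply HH.ext
    · simp only [mul_v, inv_v, inv_k, one_v, fadd]
    · simp only [mul_x, inv_x, inv_v, inv_k, one_x, act_add, act_be]
      have : ∀ p q : Fn n, p + q + p + q = (p + p) + (q + q) := by intro p q; abel
      rw [this, fadd, fadd, add_zero]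
    · simp only [mul_k, inv_k, one_k, inv_mul_cancel])

/-- projection -/
def pr : HH n →* KK n where
  toFun := HH.k
  map_one' := rfl
  map_mul' _ _ := rfl

theorem comm_k (a b : HH n) : (⁅a, b⁆ : HH n).k = ⁅a.k, b.k⁆ := map_commutatorElement pr a b

theorem comm_v (c b : HH n) (hc : c.k = 1) : (⁅c, b⁆ : HH n).v = c.v + act b.k c.v := by
  rw [commutatorElement_def]
  simp only [mul_v, mul_k, inv_v, inv_k, hc, inv_one, act_one, one_mul, mul_one, act_act,
    mul_inv_cancel]
  have : c.v + b.v + act b.k c.v + b.v = c.v + act b.k c.v + (b.v + b.v) := by abel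
  rw [this, fadd, add_zero]

theorem comm_x (c a : HH n) (hc : c.k = 1) (ha : a.k = 1) :
    (⁅c, a⁆ : HH n) = ⟨0, be c.v a.v + be a.v c.v, 1⟩ := by
  apply HH.ext
  · rw [comm_v c a hc, ha, act_one, fadd]
  · rw [commutatorElement_def]
    simp only [mul_v, mul_x, mul_k, inv_v, inv_x, inv_k, hc, ha, inv_one, act_one,
      mul_one, be_add_left]
    funext g
    have h2 : (2 : ZMod 2) = 0 := by decide
    simp only [Pi.add_apply]
    linear_combination (c.x g + a.x g + be c.v c.v g + be a.v a.v g + be c.v a.v g) * h2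
  · rw [comm_k, hc, ha]
    simp

end HH

end Pool.Agent.Helper96Var
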