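import Pool.Agent.Helper96_Var.Laws

set_option autoImplicit false

namespace Pool.Agent.Helper96Var

/-- The laws that hold in every group of the family whose index does not extend `t`. -/
def UL (G : List Bool → Type) [∀ t, Group (G t)] (t : List Bool) : Subgroup (FreeGroup ℕ) :=
  ⨅ s : {s : List Bool // ¬ t <+: s}, Laws (G s.1)

theorem FI_UL (G : List Bool → Type) [∀ t, Group (G t)] (t : List Bool) : FI (UL G t) :=
  FI_iInf fun s => FI_laws (G s.1)

theorem mem_UL {G : List Bool → Type} [∀ t, Group (G t)] {t : List Bool} {w : FreeGroup ℕ} :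
    w ∈ UL G t ↔ ∀ s : List Bool, ¬ t <+: s → w ∈ Laws (G s) := by
  unfold UL
  rw [Subgroup.mem_iInf]
  constructor
  · intro h s hs
    exact h ⟨s, hs⟩
  · intro h s
    exact h s.1 s.2

/-- A tree of groups of prime type gives a variety of groups which is not an irredundant join of
indecomposable varieties. -/
theorem main_of_tree (G : List Bool → Type) [∀ t, Group (G t)]
    (hprime : ∀ t, PrimeType (G t))
    (hmono : ∀ t b, Laws (G (t ++ [b])) ≤ Laws (G t))
    (hindep : ∀ t, ¬ UL G t ≤ Laws (G t)) :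
    ¬ (∀ A : Subgroup (FreeGroup ℕ), FI A →
      ∃ S : Set (Subgroup (FreeGroup ℕ)),
        (∀ N ∈ S, FI N) ∧
        sInf S = A ∧
        (∀ N ∈ S, sInf (S \ {N}) ≠ A) ∧
        (∀ N ∈ S, ¬ ∃ M₁ M₂ : Subgroup (FreeGroup ℕ),
            FI M₁ ∧ FI M₂ ∧ N < M₁ ∧ N < M₂ ∧ M₁ ⊓ M₂ = N)) := by
  intro hall
  obtain ⟨S, hFI, hinf, hirr, hind⟩ := hall (⨅ t, Laws (G t)) (FI_iInf fun t => FI_laws (G t))
  set A : Subgroup (FreeGroup ℕ) := ⨅ t, Laws (G t) with hA
  have hAle : ∀ t, A ≤ Laws (G t) := fun t => iInf_le _ t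
  have hne : S.Nonempty := by
    by_contra hS
    rw [Set.not_nonempty_iff_eq_empty] at hS
    rw [hS, sInf_empty] at hinf
    apply hindep []
    calc UL G [] ≤ ⊤ := le_top
      _ = A := hinf
      _ ≤ Laws (G []) := hAle _
  obtain ⟨N, hN⟩ := hne
  set M : Subgroup (FreeGroup ℕ) := sInf (S \ {N}) with hM
  have hMFI : FI M := FI_sInf fun N' hN' => hFI N' hN'.1
  have hAM : A ≤ M := by
    rw [← hinf]
    exact sInf_le_sInf Set.sdiff_subset
  have hMA : ¬ M ≤ A := fun h => hirr N hN (le_antisymm h hAM)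
  have hMN : M ⊓ N = A := by
    rw [← hinf, hM]
    apply le_antisymm
    · apply le_sInf
      intro N' hN'
      by_cases h : N' = N
      · rw [h]; exact inf_le_right
      · exact inf_le_left.trans (sInf_le ⟨hN', h⟩)
    · exact le_inf (sInf_le_sInf Set.sdiff_subset) (sInf_le hN)
  have hAN : A ≤ N := by rw [← hMN]; exact inf_le_right
  have hNFI : FI N := hFI N hN
  -- some group of the family does not satisfy the laws in `M`
  obtain ⟨s, hs⟩ : ∃ s, ¬ M ≤ Laws (G s) := by
    by_contra hcon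
    push Not at hcon
    exact hMA (le_iInf hcon)
  -- the two halves
  have key : ∀ b : Bool, ∃ w ∈ M ⊓ UL G (s ++ [b]), w ∉ Laws (G (s ++ [b])) := by
    intro b
    exact prime_laws (hprime _) hMFI (FI_UL G _) (fun h => hs (h.trans (hmono s b))) (hindep _)
  have hdisj : UL G (s ++ [false]) ⊓ UL G (s ++ [true]) ≤ A := by
    intro w hw
    rw [hA, Subgroup.mem_iInf]
    intro t
    by_cases h : s ++ [false] <+: t
    · have h' : ¬ s ++ [true] <+: t := by
        intro h'
        obtain ⟨u, hu⟩ := h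
        obtain ⟨u', hu'⟩ := h'
        rw [← hu'] at hu
        simp at hu
      exact mem_UL.1 hw.2 t h'
    · exact mem_UL.1 hw.1 t h
  have hAU : ∀ t, A ≤ UL G t := by
    intro t w hw
    rw [mem_UL]
    intro r _
    exact hAle r hw
  refine hind N hN ⟨N ⊔ (M ⊓ UL G (s ++ [false])), N ⊔ (M ⊓ UL G (s ++ [true])),
    FI_sup hNFI (FI_inf hMFI (FI_UL G _)), FI_sup hNFI (FI_inf hMFI (FI_UL G _)), ?_, ?_, ?_⟩
  · obtain ⟨w, hw, hw'⟩ := key false
    refine lt_of_le_of_ne le_sup_left ?_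
    intro heq
    have : w ∈ N := by rw [heq]; exact (le_sup_right : _ ≤ N ⊔ (M ⊓ UL G (s ++ [false]))) hw
    have : w ∈ A := by rw [← hMN]; exact ⟨hw.1, this⟩
    exact hw' (hAle _ this)
  · obtain ⟨w, hw, hw'⟩ := key true
    refine lt_of_le_of_ne le_sup_left ?_
    intro heq
    have : w ∈ N := by rw [heq]; exact (le_sup_right : _ ≤ N ⊔ (M ⊓ UL G (s ++ [true]))) hw
    have : w ∈ A := by rw [← hMN]; exact ⟨hw.1, this⟩
    exact hw' (hAle _ this)
  · apply le_antisymm
    · intro g hg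
      have hnN := hNFI.normal
      rw [Subgroup.mem_inf] at hg
      obtain ⟨h0, h1⟩ := hg
      rw [Subgroup.mem_sup_of_normal_left] at h0 h1
      obtain ⟨n0, hn0, m0, hm0, e0⟩ := h0
      obtain ⟨n1, hn1, m1, hm1, e1⟩ := h1
      have hd : m1 * m0⁻¹ = n1⁻¹ * n0 := by
        rw [← e1] at e0
        have : n0 = n1 * m1 * m0⁻¹ := by rw [← e0]; group
        rw [this]; group
      have hdA : m1 * m0⁻¹ ∈ A := by
        rw [← hMN]
        refine ⟨M.mul_mem hm1.1 (M.inv_mem hm0.1), ?_⟩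
        rw [SetLike.mem_coe, hd]
        exact N.mul_mem (N.inv_mem hn1) hn0
      have hm1' : m1 ∈ UL G (s ++ [false]) := by
        have : m1 = (m1 * m0⁻¹) * m0 := by group
        rw [this]
        exact (UL G (s ++ [false])).mul_mem (hAU _ hdA) hm0.2
      have : m1 ∈ A := hdisj ⟨hm1', hm1.2⟩
      rw [← e1]
      exact N.mul_mem hn1 (hAN this)
    · exact le_inf le_sup_left le_sup_left

end Pool.Agent.Helper96Var
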